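import Pool.Agent.T9h88.IO.Spec

/-!
# Proofs give lists of instructions
-/

set_option autoImplicit false

namespace Pool.Agent.T9h18.IO

open Pool.Agent.TH672 (Fm Str upd num digits varStr LogK ReplK Sw)
open Pool.Agent.TH672.Form (ren)
open Pool.Agent.TH636.BC
open Pool.Agent.T9h6.BC (sz cl subst_self freeFor_self)
open Pool.Agent.TH690.J100 (subst_of_not_free)
open Pool.Agent.T9h88.IO
open Pool.Agent.T9h88.IO.Tree

/-! ### Sizes -/

theorem size_comb : ∀ n : ℕ, (comb n).size = n
  | 0 => rfl
  | n + 1 => by show Tree.size .nil + (comb n).size + 1 = n + 1; rw [size_comb n]; simp [Tree.size]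

theorem comb_inj : ∀ {m n : ℕ}, comb m = comb n → m = n := by
  intro m n h
  rw [← size_comb m, h, size_comb]

theorem opc_comb : ∀ n : ℕ, opc (comb n) = n
  | 0 => rfl
  | n + 1 => by show opc (comb n) + 1 = n + 1; rw [opc_comb n]

theorem varStr_len (x : ℕ) : (varStr x).length = x + 1 := by simp [varStr]

theorem size_enc : ∀ φ : Fml, (enc φ).size ≤ 2 * (str φ).length := by
  intro φ
  induction φ with
  | bot => simp [enc, Tree.size]
  | eq x y => simp [enc, encA, encV, Tree.size, size_comb, str, varStr_len]; omega
  | zero x => simp [enc, encA, encV, Tree.size, size_comb, str, varStr_len]; omega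
  | succ x y => simp [enc, encA, encV, Tree.size, size_comb, str, varStr_len]; omega
  | add x y z => simp [enc, encA, encV, Tree.size, size_comb, str, varStr_len]; omega
  | mul x y z => simp [enc, encA, encV, Tree.size, size_comb, str, varStr_len]; omega
  | op i a b c d => simp [enc, encA, encV, Tree.size, size_comb, str, varStr_len]; omega
  | imp φ ψ ih1 ih2 => simp [enc, Tree.size, str]; omega
  | all x φ ih => simp [enc, Tree.size, size_comb, str, varStr_len]; omega

/-! ### The functions on encodings -/

theorem eqT_eq : ∀ a b : Tree, eqT a b = if a = b then tt else ff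
  | .nil, .nil => by simp [eqT]
  | .nil, .node _ _ => by simp [eqT]
  | .node _ _, .nil => by simp [eqT]
  | .node a b, .node c d => by
    rw [eqT, eqT_eq a c, eqT_eq b d]
    by_cases h1 : a = c <;> by_cases h2 : b = d <;> simp [h1, h2]

theorem eqT_self (a : Tree) : eqT a a ≠ ff := by rw [eqT_eq]; simp

theorem eqT_ne {a b : Tree} (h : a ≠ b) : eqT a b = ff := by rw [eqT_eq]; simp [h]

theorem eqT_comb (x y : ℕ) : eqT (comb x) (comb y) = ff ↔ x ≠ y := by
  rw [eqT_eq]
  constructor
  · intro h e
    subst e
    simp at h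
  · intro h
    rw [if_neg fun e => h (comb_inj e)]

theorem memT_enc (x : ℕ) : ∀ l : List ℕ, memT (comb x) (encV l) = ff ↔ x ∉ l
  | [] => by simp [encV, memT]
  | y :: l => by
    rw [encV, memT]
    by_cases h : x = y
    · rw [if_neg ((eqT_comb x y).not.2 (by simpa using h))]
      simp [h]
    · rw [if_pos ((eqT_comb x y).2 h), memT_enc x l]
      simp [h]

theorem free_encA (x : ℕ) (k : Tree) (l : List ℕ) :
    freeT (comb x) (encA k l) = ff ↔ x ∉ l := by
  rw [encA, freeT, memT_enc]

theorem freeT_enc (x : ℕ) : ∀ φ : Fml, freeT (comb x) (enc φ) = ff ↔ ¬ φ.Free x := by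
  intro φ
  induction φ with
  | bot => simp [enc, freeT, Fm.Free]
  | eq u v => simp [enc, free_encA, Fm.Free]
  | zero u => simp [enc, free_encA, Fm.Free]
  | succ u v => simp [enc, free_encA, Fm.Free]
  | add u v w => simp [enc, free_encA, Fm.Free]
  | mul u v w => simp [enc, free_encA, Fm.Free]
  | op i a b c d => simp [enc, free_encA, Fm.Free]
  | imp φ ψ ih1 ih2 =>
    rw [enc, freeT]
    by_cases h : φ.Free x
    · rw [if_neg (ih1.not.2 (by simpa using h))]
      simp [Fm.Free, h]
    · rw [if_pos (ih1.2 h), ih2]
      simp [Fm.Free, h]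
  | all u φ ih =>
    rw [enc, freeT]
    by_cases h : x = u
    · rw [if_neg ((eqT_comb x u).not.2 (by simpa using h))]
      simp [Fm.Free, h]
    · rw [if_pos ((eqT_comb x u).2 h), ih]
      simp [Fm.Free, h]

theorem ffor_encA (x y k : Tree) (l : List ℕ) : fforT y x (encA k l) = tt := by
  rw [encA, fforT]

theorem fforT_enc (y x : ℕ) : ∀ φ : Fml, φ.FreeFor y x →
    fforT (comb y) (comb x) (enc φ) ≠ ff := by
  intro φ
  induction φ with
  | bot => simp [enc, fforT]
  | eq u v => simp [enc, ffor_encA]
  | zero u => simp [enc, ffor_encA]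
  | succ u v => simp [enc, ffor_encA]
  | add u v w => simp [enc, ffor_encA]
  | mul u v w => simp [enc, ffor_encA]
  | op i a b c d => simp [enc, ffor_encA]
  | imp φ ψ ih1 ih2 =>
    rintro ⟨h1, h2⟩
    rw [enc, fforT, if_neg (ih1 h1)]
    exact ih2 h2
  | all u φ ih =>
    intro h
    rw [enc, fforT]
    by_cases e : u = x
    · rw [if_neg ((eqT_comb u x).not.2 (by simpa using e))]
      simp
    · rw [if_pos ((eqT_comb u x).2 e)]
      by_cases hf : φ.Free x
      · rw [if_neg ((freeT_enc x φ).not.2 (by simpa using hf))]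
        rcases h with h | h | ⟨h1, h2⟩
        · exact absurd h e
        · exact absurd hf h
        · rw [if_pos ((eqT_comb u y).2 h1)]
          exact ih h2
      · rw [if_pos ((freeT_enc x φ).2 hf)]
        simp

theorem subV_enc (x y : ℕ) : ∀ l : List ℕ,
    subV (comb x) (comb y) (encV l) = encV (l.map (ren x y))
  | [] => rfl
  | v :: l => by
    rw [encV, subV, subV_enc x y l, List.map_cons, encV]
    by_cases h : v = x
    · rw [if_neg ((eqT_comb v x).not.2 (by simpa using h))]
      simp [ren, h]
    · rw [if_pos ((eqT_comb v x).2 h)]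
      simp [ren, h]

theorem sub_encA (x y : ℕ) (k : Tree) (l : List ℕ) :
    subT (comb x) (comb y) (encA k l) = encA k (l.map (ren x y)) := by
  rw [encA, subT, subV_enc, encA]

theorem subT_enc (x y : ℕ) : ∀ φ : Fml, subT (comb x) (comb y) (enc φ) = enc (φ.subst x y) := by
  intro φ
  induction φ with
  | bot => rfl
  | eq u v => simp [enc, sub_encA, Fm.subst]
  | zero u => simp [enc, sub_encA, Fm.subst]
  | succ u v => simp [enc, sub_encA, Fm.subst]
  | add u v w => simp [enc, sub_encA, Fm.subst]
  | mul u v w => simp [enc, sub_encA, Fm.subst]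
  | op i a b c d => simp [enc, sub_encA, Fm.subst]
  | imp φ ψ ih1 ih2 => rw [enc, subT, ih1, ih2, Fm.subst, enc]
  | all u φ ih =>
    rw [enc, subT, Fm.subst]
    by_cases h : u = x
    · rw [if_neg ((eqT_comb u x).not.2 (by simpa using h)), if_pos h, enc]
    · rw [if_pos ((eqT_comb u x).2 h), if_neg h, ih, enc]

theorem sw1_enc {x y u v : ℕ} (h : Sw x y u v) :
    sw1 (.node (comb x) (comb y)) (comb u) (comb v) ≠ ff := by
  rw [sw1]
  split_ifs with h1 h2
  · rcases h with h | ⟨h, _⟩
    · exact absurd ((eqT_comb u v).1 h1) (by simpa using h.symm)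
    · exact absurd ((eqT_comb u x).1 h2) (by simpa using h)
  · rcases h with h | ⟨_, h⟩
    · exact absurd ((eqT_comb u v).1 h1) (by simpa using h.symm)
    · rw [h]
      exact eqT_self _
  · simp

theorem swT_enc {x y : ℕ} : ∀ {l l' : List ℕ}, List.Forall₂ (Sw x y) l l' →
    swT (.node (comb x) (comb y)) (encV l) (encV l') ≠ ff
  | _, _, .nil => by simp [encV, swT]
  | _, _, .cons h t => by
    rw [encV, encV, swT, if_neg (sw1_enc h)]
    exact swT_enc t

/-- a list of trees as a tree -/
def toL : List Tree → Tree
  | [] => .nil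
  | a :: l => .node a (toL l)

theorem encL_eq : ∀ Γ : List Fml, encL Γ = toL (Γ.map enc)
  | [] => rfl
  | φ :: Γ => by rw [encL, List.map_cons, toL, encL_eq Γ]

theorem nth_toL : ∀ (L : List Tree) (a : Tree) (M : List Tree),
    nthT (toL (L ++ a :: M)) (comb L.length) = a
  | [], a, M => by
    show nthT (.node a (toL M)) .nil = a
    rw [nthT]
  | b :: L, a, M => by
    obtain ⟨p, q, h⟩ : ∃ p q, toL (L ++ a :: M) = .node p q := by
      cases L with
      | nil => exact ⟨_, _, rfl⟩
      | cons c L => exact ⟨_, _, rfl⟩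
    have := nth_toL L a M
    show nthT (.node b (toL (L ++ a :: M))) (.node .nil (comb L.length)) = a
    rw [h] at this ⊢
    rw [nthT, this]

theorem nth_mem {L : List Tree} {a : Tree} (h : a ∈ L) (M : List Tree) :
    ∃ i < L.length, nthT (toL (L ++ M)) (comb i) = a := by
  obtain ⟨s, t, rfl⟩ := List.append_of_mem h
  refine ⟨s.length, by simp, ?_⟩
  rw [List.append_assoc, List.cons_append]
  exact nth_toL s a (t ++ M)

/-! ### Instructions -/

/-- an instruction -/
def ins (k : ℕ) (a b c d : Tree) : Tree := .node (comb k) (.node a (.node b (.node c d)))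

theorem size_ins (k : ℕ) (a b c d : Tree) :
    (ins k a b c d).size = k + a.size + b.size + c.size + d.size + 4 := by
  simp [ins, Tree.size, size_comb]; omega

theorem line_ins (g π : Tree) (k : ℕ) (a b c d : Tree) :
    lineT g π (ins k a b c d) = lineO g π k a b c d := by
  rw [ins, lineT, opc_comb]

theorem free_lt_subst {x : ℕ} (y : ℕ) : ∀ φ : Fml, φ.Free x →
    y < (str (φ.subst x y)).length := by
  intro φ
  induction φ with
  | bot => intro h; exact absurd h (by simp [Fm.Free])
  | eq u v =>
    intro h
    rcases h with h | h <;> subst h <;> simp [Fm.subst, str, varStr_len, ren] <;> omega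
  | zero u =>
    intro h
    change x = u at h
    subst h
    simp [Fm.subst, str, varStr_len, ren]; omega
  | succ u v =>
    intro h
    rcases h with h | h <;> subst h <;> simp [Fm.subst, str, varStr_len, ren] <;> omega
  | add u v w =>
    intro h
    rcases h with h | h | h <;> subst h <;> simp [Fm.subst, str, varStr_len, ren] <;> omega
  | mul u v w =>
    intro h
    rcases h with h | h | h <;> subst h <;> simp [Fm.subst, str, varStr_len, ren] <;> omega
  | op i a b c d =>
    intro h
    rcases h with h | h | h | h <;> subst h <;> simp [Fm.subst, str, varStr_len, ren] <;> omega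
  | imp φ ψ ih1 ih2 =>
    intro h
    rcases h with h | h
    · have := ih1 h
      simp only [Fm.subst, str, List.length_append]; omega
    · have := ih2 h
      simp only [Fm.subst, str, List.length_append]; omega
  | all u φ ih =>
    rintro ⟨h1, h2⟩
    have := ih h2
    rw [Fm.subst, if_neg (Ne.symm h1)]
    simp only [str, List.length_append]; omega

/-- logical axioms -/
theorem log_ins {φ : Fml} (h : LogK φ) : ∃ j : Tree, j.size ≤ 4 * (str φ).length + 50 ∧
    ∀ g π : Tree, lineT g π j = enc φ := by
  cases h with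
  | k φ ψ =>
    refine ⟨ins 1 (enc φ) (enc ψ) .nil .nil, ?_, fun g π => ?_⟩
    · have := size_enc φ
      have := size_enc ψ
      simp only [size_ins, str, List.length_append, Tree.size]; omega
    · rw [line_ins]; rfl
  | s φ ψ χ =>
    refine ⟨ins 2 (enc φ) (enc ψ) (enc χ) .nil, ?_, fun g π => ?_⟩
    · have := size_enc φ
      have := size_enc ψ
      have := size_enc χ
      simp only [size_ins, str, List.length_append, Tree.size]; omega
    · rw [line_ins]; rfl
  | dn φ =>
    refine ⟨ins 3 (enc φ) .nil .nil .nil, ?_, fun g π => ?_⟩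
    · have := size_enc φ
      simp only [size_ins, str, List.length_append, Tree.size]; omega
    · rw [line_ins]; rfl
  | inst x y φ h =>
    obtain ⟨z, hz1, hz2, hz3⟩ : ∃ z, φ.FreeFor z x ∧ φ.subst x z = φ.subst x y ∧
        z ≤ (str ((Fm.all x φ).imp (φ.subst x y))).length := by
      by_cases hf : φ.Free x
      · refine ⟨y, h, rfl, ?_⟩
        have := free_lt_subst y φ hf
        simp only [str, List.length_append]; omega
      · refine ⟨x, freeFor_self φ, ?_, ?_⟩
        · rw [subst_of_not_free hf, subst_of_not_free hf]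
        · simp only [str, List.length_append, varStr_len]; omega
    refine ⟨ins 4 (comb x) (comb z) (enc φ) .nil, ?_, fun g π => ?_⟩
    · have := size_enc φ
      simp only [size_ins, str, List.length_append, Tree.size, size_comb, varStr_len] at hz3 ⊢
      omega
    · rw [line_ins, lineO, if_neg (fforT_enc z x φ hz1), subT_enc, hz2]; rfl
  | dist x φ ψ h =>
    refine ⟨ins 5 (comb x) (enc φ) (enc ψ) .nil, ?_, fun g π => ?_⟩
    · have := size_enc φ
      have := size_enc ψ
      simp only [size_ins, str, List.length_append, Tree.size, size_comb, varStr_len]; omega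
    · rw [line_ins, lineO, if_pos ((freeT_enc x φ).2 h)]; rfl
  | refl x =>
    refine ⟨ins 6 (comb x) .nil .nil .nil, ?_, fun g π => ?_⟩
    · simp only [size_ins, str, List.length_append, Tree.size, size_comb, varStr_len]; omega
    · rw [line_ins]; rfl
  | repl x y φ ψ h =>
    have key : ∀ (k : Tree) (l l' : List ℕ), l ≠ [] → List.Forall₂ (Sw x y) l l' →
        ∀ g π : Tree, lineT g π (ins 7 (comb x) (comb y) k (.node (encV l) (encV l'))) =
          impT (eqA (comb x) (comb y)) (impT (encA k l) (encA k l')) := by
      intro k l l' h0 h1 g π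
      obtain ⟨v, vs, rfl⟩ := List.exists_cons_of_ne_nil h0
      rw [line_ins]
      have := swT_enc h1
      rw [encV] at this ⊢
      rw [lineO, if_neg this]
      rfl
    cases h with
    | eq h1 h2 =>
      rename_i u v u' v'
      refine ⟨_, ?_, fun g π => key .nil [u, v] [u', v'] (by simp)
        (.cons h1 (.cons h2 .nil)) g π⟩
      simp only [size_ins, str, List.length_append, Tree.size, size_comb, varStr_len, encV]; omega
    | zero h1 =>
      rename_i u u'
      refine ⟨_, ?_, fun g π => key (.node tt .nil) [u] [u'] (by simp) (.cons h1 .nil) g π⟩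
      simp only [size_ins, str, List.length_append, Tree.size, size_comb, varStr_len, encV]; omega
    | succ h1 h2 =>
      rename_i u v u' v'
      refine ⟨_, ?_, fun g π => key (.node tt (comb 1)) [u, v] [u', v'] (by simp)
        (.cons h1 (.cons h2 .nil)) g π⟩
      simp only [size_ins, str, List.length_append, Tree.size, size_comb, varStr_len, encV]; omega
    | add h1 h2 h3 =>
      rename_i u v w u' v' w'
      refine ⟨_, ?_, fun g π => key (.node tt (comb 2)) [u, v, w] [u', v', w'] (by simp)
        (.cons h1 (.cons h2 (.cons h3 .nil))) g π⟩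
      simp only [size_ins, str, List.length_append, Tree.size, size_comb, varStr_len, encV]; omega
    | mul h1 h2 h3 =>
      rename_i u v w u' v' w'
      refine ⟨_, ?_, fun g π => key (.node tt (comb 3)) [u, v, w] [u', v', w'] (by simp)
        (.cons h1 (.cons h2 (.cons h3 .nil))) g π⟩
      simp only [size_ins, str, List.length_append, Tree.size, size_comb, varStr_len, encV]; omega
    | op h1 h2 h3 h4 =>
      rename_i i a b c d a' b' c' d'
      refine ⟨_, ?_, fun g π => key (.node .nil (comb i)) [a, b, c, d] [a', b', c', d'] (by simp)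
        (.cons h1 (.cons h2 (.cons h3 (.cons h4 .nil)))) g π⟩
      simp only [size_ins, str, List.length_append, Tree.size, size_comb, varStr_len, encV]; omega

/-- one line -/
theorem step_ins {Γ π : List Fml} {φ : Fml} (h : Step Γ π φ) : ∃ j : Tree,
    j.size ≤ 4 * (str φ).length + 50 + 2 * π.length + Γ.length ∧
    lineT (encL Γ) (toL (π.map enc ++ [dflt])) j = enc φ := by
  rcases h with h | h | ⟨ψ, h1, h2⟩ | ⟨ψ, h, x, rfl⟩
  · have hm : enc φ ∈ Γ.map enc := List.mem_map_of_mem h
    obtain ⟨i, hi, h3⟩ := nth_mem hm []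
    rw [List.append_nil, ← encL_eq] at h3
    rw [List.length_map] at hi
    refine ⟨ins 0 (comb i) .nil .nil .nil, ?_, ?_⟩
    · simp only [size_ins, Tree.size, size_comb]; omega
    · rw [line_ins, lineO]
      split_ifs with h0
      · cases Γ with
        | nil => simp at h
        | cons a Γ => simp [encL] at h0
      · exact h3
  · obtain ⟨j, h1, h2⟩ := log_ins h
    exact ⟨j, by omega, h2 _ _⟩
  · obtain ⟨i, hi, h3⟩ := nth_mem (List.mem_map_of_mem (f := enc) h1) [dflt]
    obtain ⟨j, hj, h4⟩ := nth_mem (List.mem_map_of_mem (f := enc) h2) [dflt]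
    rw [List.length_map] at hi hj
    refine ⟨ins 8 (comb j) (comb i) (enc φ) .nil, ?_, ?_⟩
    · have := size_enc φ
      simp only [size_ins, Tree.size, size_comb]; omega
    · rw [line_ins, lineO, h3, h4, if_neg]
      exact eqT_self _
  · obtain ⟨i, hi, h3⟩ := nth_mem (List.mem_map_of_mem (f := enc) h) [dflt]
    rw [List.length_map] at hi
    refine ⟨ins 9 (comb x) (comb i) .nil .nil, ?_, ?_⟩
    · simp only [size_ins, Tree.size, size_comb, str, List.length_append, varStr_len]; omega
    · rw [line_ins, lineO, h3]
      · rfl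
      all_goals simp

theorem strs_cons (φ : Fml) (π : List Fml) : (strs (φ :: π)).length =
    (str φ).length + (strs π).length := by simp [strs]

theorem str_pos (φ : Fml) : 1 ≤ (str φ).length := by
  cases φ <;> simp [str]

theorem len_le_strs : ∀ π : List Fml, π.length ≤ (strs π).length
  | [] => by simp
  | φ :: π => by
    have := len_le_strs π
    have := str_pos φ
    rw [strs_cons, List.length_cons]; omega

/-- the whole proof -/
theorem proof_ins {Γ : List Fml} : ∀ {π : List Fml}, IsProof Γ π → ∃ l : Tree,
    l.size ≤ 4 * (strs π).length + π.length * (51 + 2 * π.length + Γ.length) ∧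
    runT (encL Γ) l = toL (π.map enc ++ [dflt])
  | [], _ => ⟨.nil, by simp [Tree.size], by rw [runT]; rfl⟩
  | φ :: π, ⟨h1, h2⟩ => by
    obtain ⟨l, hl1, hl2⟩ := proof_ins h1
    obtain ⟨j, hj1, hj2⟩ := step_ins h2
    refine ⟨.node j l, ?_, ?_⟩
    · rw [strs_cons, List.length_cons, Tree.size]
      nlinarith
    · rw [runT, hl2, hj2]; rfl

/-- Proofs give lists of instructions, with a constant. -/
theorem script (Γ π : List Fml) (h : IsProof Γ (Fm.bot :: π)) : ∃ l : Tree,
    l.size ≤ 57 * ((strs (Fm.bot :: π)).length + Γ.length) ^ 2 ∧ ¬ Ok0 (encL Γ) l := by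
  obtain ⟨l, h1, h2⟩ := proof_ins h
  refine ⟨l, h1.trans ?_, ?_⟩
  · have h3 := len_le_strs (Fm.bot :: π)
    have h4 : 1 ≤ (strs (Fm.bot :: π)).length := by
      have : 1 ≤ (Fm.bot :: π : List Fml).length := by simp
      omega
    generalize (strs (Fm.bot :: π)).length = n at *
    generalize (Fm.bot :: π : List Fml).length = m at *
    generalize Γ.length = g at *
    have h5 : m * (51 + 2 * m + g) ≤ n * (51 + 2 * n + g) :=
      Nat.mul_le_mul h3 (by omega)
    nlinarith
  · rintro ⟨a, b, p, h⟩
    rw [h2, List.map_cons, List.cons_append, toL] at h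
    simp [enc] at h

/-- Proofs give lists of instructions. -/
theorem sScript : SScript := ⟨57, script⟩

end Pool.Agent.T9h18.IO
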