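import Pool.Agent.T9h88.IO.Asm2
import Pool.Agent.T9h18.IO.Script

/-!
# The theory `U` is true in the standard model
-/

set_option autoImplicit false

namespace Pool.Agent.T9h18.IO

open Pool.Agent.TH672 (Fm Str upd num digits varStr LogK Pv upd_same upd_ne upd_self)
open Pool.Agent.TH636.BC
open Pool.Agent.T9h6.BC (sz cl)
open Pool.Agent.TH838.J1549 (sat_inst)
open Pool.Agent.TH197.J1545 (sat_proves code_inj)
open Pool.Agent.T9h88.IO

theorem len_le_num (w : List Bool) : w.length ≤ num w := by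
  induction w using List.reverseRecOn with
  | nil => simp
  | append_singleton w b ih =>
    rw [List.length_append, List.length_singleton]
    have : num (w ++ [b]) = 2 * num w + if b then 2 else 1 := by
      simp [num, List.foldl_append]
    rw [this]
    split_ifs <;> omega

theorem len_le_code (Γ : List Fml) : Γ.length ≤ code Γ :=
  (len_le_strs Γ).trans (len_le_num _)

theorem doneS_mono {g : Tree} : ∀ (k t : Tree) {m n : ℕ}, m ≤ n → DoneS g k t n → DoneS g k t m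
  | .nil, t, m, n, _, h => by simpa only [DoneS] using h
  | .node .nil k, t, m, n, hmn, h => by
    rw [DoneS] at h ⊢
    exact fun a ha => doneS_mono k _ (by omega) (h a (ha.trans hmn))
  | .node (.node a b) k, t, m, n, hmn, h => by
    rw [DoneS] at h ⊢
    exact doneS_mono k _ hmn h

theorem noRef_mono {u m n : ℕ} (hmn : m ≤ n) (h : NoRef u n) : NoRef u m :=
  fun Γ hΓ l hl => h Γ hΓ l (hl.trans hmn)

theorem tw_succ (i a : ℕ) : tw (i + 1) a = 2 ^ tw i a := by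
  rw [tw, Function.iterate_succ_apply']
  rfl

theorem tw_strictMono (i : ℕ) : StrictMono (tw i) := by
  induction i with
  | zero => exact fun a b h => h
  | succ i ih =>
    intro a b h
    rw [tw_succ, tw_succ]
    exact Nat.pow_lt_pow_right (by norm_num) (ih h)

theorem tw_lt_succ (i a : ℕ) : tw i a < tw (i + 1) a := by
  rw [tw_succ]
  exact Nat.lt_two_pow_self

theorem xs_lt (j : ℕ) : xs j < xs (j + 1) := by
  rw [xs, xs]
  refine (tw_lt_succ _ _).trans (tw_strictMono _ ?_)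
  exact Nat.mul_self_lt_mul_self (by omega)

theorem ys_lt (j : ℕ) : ys j < ys (j + 1) := by
  rw [ys, ys]
  exact (tw_lt_succ _ _).trans (tw_strictMono _ (by omega))

theorem xs_strictMono : StrictMono xs := strictMono_nat_of_lt_succ xs_lt

theorem ys_strictMono : StrictMono ys := strictMono_nat_of_lt_succ ys_lt

/-- formulas of arithmetic have the same truth value in the two structures -/
theorem sat_arith (P : Fml) (σ : List Bool) (κ : ℕ) : ∀ (φ : Fml), Arith φ → ∀ v : ℕ → ℕ,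
    (Fm.Sat NatStr φ v ↔ Fm.Sat (Std P σ κ) φ v)
  | .bot, _, _ => Iff.rfl
  | .eq _ _, _, _ => Iff.rfl
  | .zero _, _, _ => Iff.rfl
  | .succ _ _, _, _ => Iff.rfl
  | .add _ _ _, _, _ => Iff.rfl
  | .mul _ _ _, _, _ => Iff.rfl
  | .op _ _ _ _ _, h, _ => absurd h (by simp [Arith])
  | .imp φ ψ, h, v => by
    have h1 := sat_arith P σ κ φ h.1 v
    have h2 := sat_arith P σ κ ψ h.2 v
    exact ⟨fun g a => h2.1 (g (h1.2 a)), fun g a => h2.2 (g (h1.1 a))⟩
  | .all x φ, h, v => ⟨fun g a => (sat_arith P σ κ φ h (upd v x a)).1 (g a),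
      fun g a => (sat_arith P σ κ φ h (upd v x a)).2 (g a)⟩

section

variable {P : Fml} (σ : List Bool) {κ : ℕ}

/-- the axiom `link` -/
theorem sat_link (hP : Numerates P) (hκ : ScriptC κ) (w : ℕ → ℕ) :
    Fm.Sat (Std P σ (4 * κ)) (link P) w := by
  rw [link]
  simp only [Fm.sat_all, Fm.sat_imp]
  intro (u : ℕ) (n : ℕ) (x : ℕ) h1 h2 h3
  rw [sat_off σ (4 * κ) hP]
  have e2 : upd (upd (upd w 2 u) 3 n) 5 x 2 = u := by
    rw [upd_ne _ _ (by decide), upd_ne _ _ (by decide), upd_same]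
  have e3 : upd (upd (upd w 2 u) 3 n) 5 x 3 = n := by
    rw [upd_ne _ _ (by decide), upd_same]
  have e5 : upd (upd (upd w 2 u) 3 n) 5 x 5 = x := upd_same ..
  have g1 : (u : ℕ) ≤ n := by
    have h1' : upd (upd (upd w 2 u) 3 n) 5 x 2 ≤ upd (upd (upd w 2 u) 3 n) 5 x 3 := h1
    rwa [e2, e3] at h1'
  have g2 : 4 * κ * (n : ℕ) ^ 2 ≤ x := by
    have h2' : 4 * κ * (upd (upd (upd w 2 u) 3 n) 5 x 3) ^ 2 ≤
      upd (upd (upd w 2 u) 3 n) 5 x 5 := h2
    rwa [e3, e5] at h2'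
  have g3 : NoRef u x := by
    have h3' : NoRef (upd (upd (upd w 2 u) 3 n) 5 x 2) (upd (upd (upd w 2 u) 3 n) 5 x 5) := h3
    rwa [e2, e5] at h3'
  erw [e2, e3]
  rintro ⟨Γ, φ, a1, a2, ⟨π, b1, b2⟩⟩
  have e : φ = Fm.bot := by simpa using (code_inj a2).symm
  subst e
  obtain ⟨l, hl, hl2⟩ := hκ Γ π b1
  refine hl2 (g3 Γ a1.symm l (hl.trans (le_trans ?_ g2)))
  have c1 := len_le_code Γ
  have c2 : (strs (Fm.bot :: π)).length + Γ.length ≤ 2 * n := by
    rw [← a1] at c1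
    omega
  calc κ * ((strs (Fm.bot :: π)).length + Γ.length) ^ 2 ≤ κ * (2 * n) ^ 2 :=
        Nat.mul_le_mul_left _ (Nat.pow_le_pow_left c2 2)
    _ = 4 * κ * n ^ 2 := by ring

theorem clsB_true (v1 : VTree) (v2 : VAll) (v3 : VStr) (v4 : VNum) (P : Fml) (κ : ℕ) :
    ∀ c ∈ clsB P κ, c.Tr P σ κ := by
  intro c hc
  unfold clsB at hc
  simp only [List.mem_append] at hc
  have u1 : c ∈ clTree → c.Tr P σ κ := v1 P σ κ c
  have u4 : c ∈ clNum P κ ++ kCl κ ++ clApp P ++ clTh ++ clsD σ → c.Tr P σ κ := v4 P σ κ c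
  unfold clTree at u1
  simp only [List.mem_append] at u1 u4
  have u2 := v2 P σ κ c
  have u3 := v3 P σ κ c
  tauto

/-- the base theory -/
theorem sat_B (v1 : VTree) (v2 : VAll) (v3 : VStr) (v4 : VNum) {A₀ : List Fml} (hA : TrueSent A₀)
    (hP : Numerates P) (hκ : ScriptC κ) :
    ∀ ψ ∈ B A₀ P (4 * κ), ∀ w : ℕ → ℕ, Fm.Sat (Std P σ (4 * κ)) ψ w := by
  intro ψ hψ w
  unfold B at hψ
  simp only [List.mem_append, List.mem_cons, List.mem_map] at hψ
  rcases hψ with hψ | (hψ | hψ) | hψ | ⟨c, hc, hψ⟩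
  · exact (sat_arith P σ (4 * κ) ψ (hA ψ hψ).2.1 w).1 ((hA ψ hψ).2.2 w)
  · exact sat_robinson P σ (4 * κ) ψ hψ w
  · exact sat_ExAx P σ (4 * κ) ψ hψ w
  · rw [hψ]
    exact sat_link σ hP hκ w
  · rw [← hψ]
    exact sat_clause P σ (4 * κ) (clsB_true σ v1 v2 v3 v4 P (4 * κ) c hc) w

/-- the second axiom -/
theorem sat_Ax2 (P : Fml) (κ : ℕ) (w : ℕ → ℕ) : Fm.Sat (Std P σ κ) Ax2 w := by
  rw [Ax2]
  simp only [Fm.sat_all, Fm.sat_imp]
  intro (v : ℕ) (z : ℕ) (t : ℕ) (r : ℕ) (s : ℕ) (y : ℕ) h1 h2 h3 h4 h5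
  set W : ℕ → ℕ := upd (upd (upd (upd (upd (upd w 27 v) 29 z) 2 t) 6 r) 7 s) 8 y with hW
  have w27 : W 27 = v := by
    rw [hW]
    simp [upd]
  have w29 : W 29 = z := by
    rw [hW]
    simp [upd]
  have w2 : W 2 = t := by
    rw [hW]
    simp [upd]
  have w6 : W 6 = r := by
    rw [hW]
    simp [upd]
  have w7 : W 7 = s := by
    rw [hW]
    simp [upd]
  have w8 : W 8 = y := by
    rw [hW]
    simp [upd]
  have g1 : t = fT P z := by
    have : W 2 = fT P (W 29) := h1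
    rwa [w2, w29] at this
  have g2 : ∃ j, r = xs j ∧ s = xs (j + 1) := by
    have : ∃ j, W 6 = xs j ∧ W 7 = xs (j + 1) := h2
    rwa [w6, w7] at this
  have g3 : ∃ j, s = xs j ∧ y = ys j := by
    have : ∃ j, W 7 = xs j ∧ W 8 = ys j := h3
    rwa [w7, w8] at this
  have g4 : NoRef t r ∨ r < t := by
    have : NoRef (W 2) (W 6) ∨ W 6 < W 2 := h4
    rwa [w2, w6] at this
  have g5 : ¬ ∀ j, fT P z ≤ xs j → NoRef v (ys j) → NoRef (fT P z) (xs j) := by
    have : ¬ ∀ j, fT P (W 29) ≤ xs j → NoRef (W 27) (ys j) → NoRef (fT P (W 29)) (xs j) := h5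
    rwa [w27, w29] at this
  have goal : NoRef v y := by
    push Not at g5
    obtain ⟨j0, k1, k2, k3⟩ := g5
    obtain ⟨j, rfl, hs⟩ := g2
    obtain ⟨j', hs', rfl⟩ := g3
    rw [hs] at hs'
    have e1 := xs_strictMono.injective hs'
    rw [← e1]
    rw [← g1] at k1 k3
    have lt : xs j < xs j0 := by
      rcases g4 with g4 | g4
      · by_contra hc
        push Not at hc
        exact k3 (noRef_mono hc g4)
      · exact g4.trans_le k1
    have lt2 : j < j0 := xs_strictMono.lt_iff_lt.1 lt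
    have le3 : ys (j + 1) ≤ ys j0 := ys_strictMono.monotone lt2
    exact noRef_mono le3 k2
  have : NoRef (W 27) (W 8) := by rwa [w27, w8]
  exact this

end

/-- truth of the formula `θ0` -/
theorem sat_θ0 (P : Fml) (σ : List Bool) (κ : ℕ) (W : ℕ → ℕ) :
    Fm.Sat (Std P σ κ) θ0 W ↔ ∀ j, fT P (W 29) ≤ xs j → NoRef (W 27) (ys j) →
      NoRef (fT P (W 29)) (xs j) := Iff.rfl

theorem not_free_θ0 {x : ℕ} (h : x < 27) : ¬ θ0.Free x := by
  change ¬ (x = 27 ∨ x = 29 ∨ x = 29 ∨ x = 29)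
  omega

/-- truth of the axiom `al` -/
theorem sat_al (A₀ : List Fml) (P : Fml) (σ : List Bool) (κ κ' v m : ℕ) (W : ℕ → ℕ) :
    Fm.Sat (Std P σ κ) (al A₀ P κ' v m) W ↔ ∀ j, fT P (zz A₀ P κ' v m) ≤ xs j →
      NoRef v (ys j) → NoRef (fT P (zz A₀ P κ' v m)) (xs j) := by
  have f1 : ∀ x < 2, ¬ (inst 27 v θ0).Free x := by
    intro x hx h
    have := Pool.Agent.TH838.J1549.free_inst h
    exact not_free_θ0 (by omega) this.2.2
  have f2 : ∀ x < 2, ¬ (psi v m).Free x := by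
    intro x hx h
    have := Pool.Agent.TH838.J1549.free_inst h
    exact f1 x hx this.2.2
  rw [al, sat_inst (qStd P σ κ) (by omega) (f2 0 (by omega)) (f2 1 (by omega)), nm_std, psi,
    sat_inst (qStd P σ κ) (by omega) (f1 0 (by omega)) (f1 1 (by omega)), nm_std,
    sat_inst (qStd P σ κ) (by omega) (not_free_θ0 (by omega)) (not_free_θ0 (by omega)), nm_std,
    sat_θ0]
  have e1 : upd (upd (upd W 29 (zz A₀ P κ' v m)) 28 m) 27 v 29 = zz A₀ P κ' v m := by
    simp [upd]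
  have e2 : upd (upd (upd W 29 (zz A₀ P κ' v m)) 28 m) 27 v 27 = v := by
    simp [upd]
  erw [e1, e2]

/-- (M1) -/
theorem mTrue : MTrue := by
  intro v1 v2 v3 v4 A₀ P κ hA hP hκ ψ hψ w
  unfold U at hψ
  simp only [List.mem_cons, List.mem_append, List.mem_map] at hψ
  rcases hψ with hψ | hψ | ⟨c, hc, hψ⟩ | hψ
  · rw [hψ, Ax1]
    simp only [Fm.sat_all, Fm.sat_imp]
    intro (v : ℕ) (m : ℕ) (z : ℕ) (a : ℕ) h1 h2 h3 (n : ℕ)
    set σ := σ0 A₀ P (4 * κ) with hσ
    rw [sat_off σ (4 * κ) hP]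
    set W : ℕ → ℕ := upd (upd (upd (upd w 27 v) 28 m) 29 z) 2 a with hW
    have w27 : W 27 = v := by
      rw [hW]
      simp [upd]
    have w28 : W 28 = m := by
      rw [hW]
      simp [upd]
    have w29 : W 29 = z := by
      rw [hW]
      simp [upd]
    have w2 : W 2 = a := by
      rw [hW]
      simp [upd]
    have g1 : z = fZ σ v m := by
      have : W 29 = fZ σ (W 27) (W 28) := h1
      rwa [w27, w28, w29] at this
    have g2 : a = fA z := by
      have : W 2 = fA (W 29) := h2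
      rwa [w2, w29] at this
    have h3' : ∀ j, fT P (W 29) ≤ xs j → NoRef (W 27) (ys j) →
        NoRef (fT P (W 29)) (xs j) := h3
    rw [w27, w29] at h3'
    rw [hσ, ← zz_eq] at g1
    rw [g1] at g2 h3'
    rw [← code_Am] at g2
    have e2 : upd W 3 n 2 = code (Am A₀ P (4 * κ) v m) := by
      rw [upd_ne _ _ (by decide), w2, g2]
    have e3 : upd W 3 n 3 = n := upd_same ..
    erw [e2, e3, prRel_iff]
    intro hpr
    refine sat_proves (S := Std P σ (4 * κ)) (fun φ hφ W' => ?_) hpr w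
    rcases List.mem_cons.1 hφ with rfl | hφ
    · exact (sat_al A₀ P σ (4 * κ) (4 * κ) v m W').2 h3'
    · exact sat_B σ v1 v2 v3 v4 hA hP hκ φ hφ W'
  · rw [hψ]
    exact sat_Ax2 _ P (4 * κ) w
  · rw [← hψ]
    refine sat_clause P _ (4 * κ) (v4 P (σ0 A₀ P (4 * κ)) (4 * κ) c ?_) w
    exact List.mem_append_right _ hc
  · exact sat_B _ v1 v2 v3 v4 hA hP hκ ψ hψ w

end Pool.Agent.T9h18.IO
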